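import Mathlib
import Pool.Agent.Lib_helper71.AF.Defs
import Pool.Agent.Lib_helper71.AF.Final

set_option autoImplicit false

open Pool.Agent.Lib_helper71.AF

/-- Let `S_F` be a subshift of finite type: `S_F = S_{F'}` for some finite set `F'` of words. Then
`G_F` is residually finite if and only if the only element of `G_F` that fixes every
shift-periodic point of `S_F` is the identity. -/
theorem Pool.Agent.Results.MP_af98ca_al.FiniteTypeCriterion.result {A : Type*} [Fintype A]
    [DecidableEq A] [TopologicalSpace A] [DiscreteTopology A] (F : Set (List A))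
    (haa : ∀ a : A, [a, a] ∈ F) (hfin : ∃ F' : Set (List A), F'.Finite ∧ SF F' = SF F) :
    Group.ResiduallyFinite (GF F haa) ↔
      ∀ g ∈ GF F haa, (∀ x : SF F, Per x.1 → g x = x) → g = 1 :=
  main F haa hfin
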